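import Pool.Agent.N913.KU.U6
import Pool.Agent.H373R2.T7.SupLiou

set_option autoImplicit false
set_option linter.unusedSectionVars false

/-! Correlations of a Fourier uniform function at one value of a random polynomial with two functions
of the values at two sets of further points. -/

namespace Pool.Agent.N913.LM

open Finset Polynomial
open Pool.Agent.H373R2.T7
open Pool.Agent.H807R2.Dav
open Pool.Agent.N913.KT (pol)
open Pool.Agent.N913.KS (Bx mem_Bx strip pol_add)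
open Pool.Agent.N913.KU (avgS u2)

/-- `∏ (X - x)` over a set of points -/
noncomputable def Nx (S : Finset ℤ) : ℤ[X] := ∏ x ∈ S, (X - C x)

theorem Nx_eval (S : Finset ℤ) (y : ℤ) : (Nx S).eval y = ∏ x ∈ S, (y - x) := by
  unfold Nx
  rw [eval_prod]
  apply prod_congr rfl
  intro x _
  rw [eval_sub, eval_X, eval_C]

theorem Nx_deg (S : Finset ℤ) : (Nx S).natDegree = S.card := by
  unfold Nx
  rw [natDegree_prod_of_monic _ _ (fun x _ => monic_X_sub_C x), sum_congr rfl (fun x _ => natDegree_X_sub_C x),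
    sum_const, smul_eq_mul, mul_one]

theorem Nx_coeff (T : ℕ) (F : Finset ℤ) : (∀ l ∈ F, |l| ≤ T) → ∀ i,
    |(Nx F).coeff i| ≤ (1 + (T : ℤ)) ^ F.card := by
  classical
  induction F using Finset.induction_on with
  | empty =>
    intro _ i
    unfold Nx
    rw [prod_empty, coeff_one, card_empty, pow_zero]
    split_ifs <;> simp
  | insert m F hm ih =>
    intro ht i
    have ih' := ih (fun l hl => ht l (mem_insert_of_mem hl))
    have htm := ht m (mem_insert_self _ _)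
    have e : Nx (insert m F) = Nx F * (X - C m) := by
      unfold Nx
      rw [prod_insert hm, mul_comm]
    have hT0 : (0 : ℤ) ≤ T := Int.natCast_nonneg _
    rw [e, card_insert_of_notMem hm]
    cases i with
    | zero =>
      rw [mul_coeff_zero, coeff_sub, coeff_X_zero, coeff_C_zero, zero_sub, mul_neg, abs_neg, abs_mul]
      calc |(Nx F).coeff 0| * |m| ≤ (1 + (T : ℤ)) ^ F.card * T :=
            mul_le_mul (ih' 0) htm (abs_nonneg _) (by positivity)
        _ ≤ (1 + (T : ℤ)) ^ F.card * (1 + T) := mul_le_mul_of_nonneg_left (by linarith) (by positivity)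
        _ = _ := by rw [pow_succ]
    | succ i =>
      rw [coeff_mul_X_sub_C]
      calc |(Nx F).coeff i - (Nx F).coeff (i + 1) * m| ≤
            |(Nx F).coeff i| + |(Nx F).coeff (i + 1) * m| := abs_sub _ _
        _ ≤ (1 + (T : ℤ)) ^ F.card + (1 + (T : ℤ)) ^ F.card * T := by
            apply add_le_add (ih' i)
            rw [abs_mul]
            exact mul_le_mul (ih' _) htm (abs_nonneg _) (by positivity)
        _ = _ := by rw [pow_succ]; ring

/-- the coefficient vector of a polynomial -/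
def cv (N : ℕ) (q : ℤ[X]) : Fin N → ℤ := fun i => q.coeff i

theorem pol_cv {N : ℕ} (P : ℤ[X]) (c : Fin N → ℤ) (q : ℤ[X]) (hq : q.natDegree < N) :
    pol P (c + cv N q) = pol P c + q := by
  have h := pol_add P c q hq 1
  rw [C_1, one_mul] at h
  rw [← h]
  congr 1
  funext i
  rw [Pi.add_apply]
  unfold cv
  rw [one_mul]

theorem pair {N : ℕ} (P : ℤ[X]) (v : ℤ → ℝ) (Y M : ℕ) (hM : 2 * Y < M) (B : ℝ)
    (hV : ∀ t : ℕ, ‖∑ m ∈ Icc (-(Y : ℤ)) Y, (v m : ℂ) * ee ((t : ℝ) * ((m : ℝ) / M))‖ ≤ B)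
    (hv : ∀ m : ℤ, |v m| ≤ 1) (H σ U T : ℕ) (hU : 1 ≤ U) (x0 : ℤ) (S1 S2 : Finset ℤ)
    (h1 : x0 ∉ S1) (h2 : x0 ∉ S2) (hc1 : S1.card < N) (hc2 : S2.card < N)
    (hT0 : |x0| ≤ T) (hT1 : ∀ x ∈ S1, |x| ≤ T) (hT2 : ∀ x ∈ S2, |x| ≤ T)
    (G1 G2 : (Fin N → ℤ) → ℝ) (hG1 : ∀ c, |G1 c| ≤ 1) (hG2 : ∀ c, |G2 c| ≤ 1)
    (inv1 : ∀ c, ∀ q : ℤ[X], q.natDegree < N → (∀ x ∈ S1, q.eval x = 0) → G1 (c + cv N q) = G1 c)
    (inv2 : ∀ c, ∀ q : ℤ[X], q.natDegree < N → (∀ x ∈ S2, q.eval x = 0) → G2 (c + cv N q) = G2 c)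
    (hσ : 2 * (U * (1 + T) ^ N) ≤ σ)
    (hY : ∀ c : Fin N → ℤ, (∀ i, |c i| ≤ H + σ) → |(pol P c).eval x0| ≤ Y) (cs : Fin N → ℤ) :
    |∑ c ∈ Bx H 1 cs, v ((pol P c).eval x0) * (G1 c * G2 c)| ≤
      (Bx H 1 cs).card * (B / U) + 2 * (strip H 1 σ cs).card := by
  classical
  have hU0 : (0 : ℝ) < U := by exact_mod_cast hU
  have hB0 : 0 ≤ B := (norm_nonneg _).trans (hV 0)
  obtain ⟨q, hq⟩ : ∃ q : ℕ × ℕ → ℤ[X], q = fun y => C (y.1 : ℤ) * Nx S1 + C (y.2 : ℤ) * Nx S2 := ⟨_, rfl⟩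
  have hd1 : ∀ a : ℤ, (C a * Nx S1).natDegree < N := fun a =>
    lt_of_le_of_lt (natDegree_C_mul_le _ _) (by rw [Nx_deg]; exact hc1)
  have hd2 : ∀ a : ℤ, (C a * Nx S2).natDegree < N := fun a =>
    lt_of_le_of_lt (natDegree_C_mul_le _ _) (by rw [Nx_deg]; exact hc2)
  have hqd : ∀ y, (q y).natDegree < N := by
    intro y
    rw [hq]
    refine lt_of_le_of_lt (natDegree_add_le _ _) ?_
    rw [max_lt_iff]
    exact ⟨hd1 _, hd2 _⟩
  have hqc : ∀ y ∈ range U ×ˢ range U, ∀ x : Fin N, |cv N (q y) x| ≤ σ := by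
    intro y hy x
    rw [mem_product, mem_range, mem_range] at hy
    unfold cv
    rw [hq]
    simp only
    rw [coeff_add, coeff_C_mul, coeff_C_mul]
    have b1 : ∀ F : Finset ℤ, F.card < N → (∀ l ∈ F, |l| ≤ T) → ∀ w : ℕ, w < U →
        |(w : ℤ) * (Nx F).coeff x| ≤ (U * (1 + T) ^ N : ℕ) := by
      intro F hF hFt w hw
      rw [abs_mul]
      have h2 := Nx_coeff T F hFt x
      have h2' : (1 + (T : ℤ)) ^ F.card ≤ (1 + (T : ℤ)) ^ N :=
        pow_le_pow_right₀ (by linarith [Int.natCast_nonneg T]) hF.le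
      have h3 : |(w : ℤ)| ≤ U := by
        rw [abs_of_nonneg (by positivity)]
        exact_mod_cast hw.le
      calc |(w : ℤ)| * |(Nx F).coeff x| ≤ U * (1 + (T : ℤ)) ^ N :=
            mul_le_mul h3 (h2.trans h2') (abs_nonneg _) (by positivity)
        _ = ((U * (1 + T) ^ N : ℕ) : ℤ) := by push_cast; ring
    have h1 := b1 S1 hc1 hT1 y.1 hy.1
    have h2 := b1 S2 hc2 hT2 y.2 hy.2
    refine (abs_add_le _ _).trans ((add_le_add h1 h2).trans ?_)
    have h3 : ((2 * (U * (1 + T) ^ N) : ℕ) : ℤ) ≤ σ := by exact_mod_cast hσ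
    push_cast at h3 ⊢
    linarith
  obtain ⟨F, hFd⟩ : ∃ F : (Fin N → ℤ) → ℝ, F = fun c => v ((pol P c).eval x0) * (G1 c * G2 c) := ⟨_, rfl⟩
  have hFb : ∀ c : Fin N → ℤ, (∀ i, |c i| ≤ H + σ) → |F c| ≤ 1 := by
    intro c _
    rw [hFd]
    simp only
    rw [abs_mul, abs_mul]
    calc |v ((pol P c).eval x0)| * (|G1 c| * |G2 c|) ≤ 1 * (1 * 1) :=
          mul_le_mul (hv _) (mul_le_mul (hG1 c) (hG2 c) (abs_nonneg _) zero_le_one) (by positivity)
            zero_le_one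
      _ = 1 := by norm_num
  have havg := avgS (range U ×ˢ range U) H 1 σ cs (fun y => cv N (q y)) (fun y _ x => by
    rw [Nat.cast_one]; exact one_dvd _) hqc F 1 hFb
  have hp1 : (Nx S1).eval x0 ≠ 0 := by
    rw [Nx_eval, prod_ne_zero_iff]
    intro l hl h0
    apply h1
    have : x0 = l := by linarith
    rw [this]; exact hl
  have hp2 : (Nx S2).eval x0 ≠ 0 := by
    rw [Nx_eval, prod_ne_zero_iff]
    intro l hl h0
    apply h2
    have : x0 = l := by linarith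
    rw [this]; exact hl
  have hin : ∀ c ∈ Bx H 1 cs, |∑ y ∈ range U ×ˢ range U, F (c + cv N (q y))| ≤ B * U * 1 * 1 := by
    intro c hc
    rw [mem_Bx] at hc
    have hce : ∀ y ∈ range U ×ˢ range U, ∀ i, |(c + cv N (q y)) i| ≤ H + σ := by
      intro y hy i
      rw [Pi.add_apply]
      have := abs_add_le (c i) (cv N (q y) i)
      linarith [(hc i).1, hqc y hy i]
    have hcv : ∀ y : ℕ × ℕ, cv N (q y) = cv N (C (y.1 : ℤ) * Nx S1) + cv N (C (y.2 : ℤ) * Nx S2) := by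
      intro y
      rw [hq]
      funext i
      unfold cv
      simp only [coeff_add, Pi.add_apply]
    have v3 : ∀ y : ℕ × ℕ, (pol P (c + cv N (q y))).eval x0 =
        (pol P c).eval x0 + (Nx S1).eval x0 * y.1 + (Nx S2).eval x0 * y.2 := by
      intro y
      rw [pol_cv P c (q y) (hqd y), eval_add, hq]
      simp only
      rw [eval_add, eval_mul, eval_mul, eval_C, eval_C]
      ring
    have z1 : ∀ a : ℤ, ∀ x ∈ S1, (C a * Nx S1).eval x = 0 := by
      intro a x hx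
      rw [eval_mul, Nx_eval, prod_eq_zero hx (sub_self x), mul_zero]
    have z2 : ∀ a : ℤ, ∀ x ∈ S2, (C a * Nx S2).eval x = 0 := by
      intro a x hx
      rw [eval_mul, Nx_eval, prod_eq_zero hx (sub_self x), mul_zero]
    have g1 : ∀ y : ℕ × ℕ, G1 (c + cv N (q y)) = G1 (c + cv N (C (y.2 : ℤ) * Nx S2)) := by
      intro y
      rw [hcv, add_comm (cv N (C (y.1 : ℤ) * Nx S1)), ← add_assoc]
      exact inv1 _ _ (hd1 _) (z1 _)
    have g2 : ∀ y : ℕ × ℕ, G2 (c + cv N (q y)) = G2 (c + cv N (C (y.1 : ℤ) * Nx S1)) := by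
      intro y
      rw [hcv, ← add_assoc]
      exact inv2 _ _ (hd2 _) (z2 _)
    have hFe : ∀ y : ℕ × ℕ, F (c + cv N (q y)) = G2 (c + cv N (C (y.1 : ℤ) * Nx S1)) *
        G1 (c + cv N (C (y.2 : ℤ) * Nx S2)) *
        v ((pol P c).eval x0 + (Nx S1).eval x0 * y.1 + (Nx S2).eval x0 * y.2) := by
      intro y
      rw [hFd]
      simp only
      rw [v3, g1, g2]
      ring
    rw [sum_congr rfl (fun y _ => hFe y), sum_product]
    apply u2 v Y M hM B hV (fun a => G2 (c + cv N (C (a : ℤ) * Nx S1)))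
      (fun b => G1 (c + cv N (C (b : ℤ) * Nx S2))) U 1 1 zero_le_one zero_le_one
      (fun a _ => hG2 _) (fun b _ => hG1 _) _ _ _ hp1 hp2
    intro a ha b hb
    have h1 := hY _ (hce (a, b) (mem_product.2 ⟨ha, hb⟩))
    rw [v3] at h1
    exact h1
  rw [card_product, card_range] at havg
  obtain ⟨S0, hS0⟩ : ∃ S0, S0 = ∑ c ∈ Bx H 1 cs, F c := ⟨_, rfl⟩
  obtain ⟨S3, hS3⟩ : ∃ S3, S3 = ∑ c ∈ Bx H 1 cs, ∑ y ∈ range U ×ˢ range U, F (c + cv N (q y)) := ⟨_, rfl⟩
  rw [← hS0, ← hS3] at havg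
  have h3 : |S3| ≤ (Bx H 1 cs).card * (B * U * 1 * 1) := by
    rw [hS3]
    refine (abs_sum_le_sum_abs _ _).trans ?_
    rw [← nsmul_eq_mul]
    exact sum_le_card_nsmul _ _ _ hin
  push_cast at havg
  have h4 : (U : ℝ) * U * |S0| ≤ (Bx H 1 cs).card * (B * U * 1 * 1) +
      U * U * (2 * 1 * (strip H 1 σ cs).card) := by
    have e : (U : ℝ) * U * |S0| = |(U : ℝ) * U * S0| := by
      rw [abs_mul, abs_of_nonneg (by positivity : (0 : ℝ) ≤ (U : ℝ) * U)]
    rw [e]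
    have e2 : (U : ℝ) * U * S0 = S3 - (S3 - U * U * S0) := by ring
    rw [e2]
    exact (abs_sub _ _).trans (add_le_add h3 havg)
  have hgoal : ∑ c ∈ Bx H 1 cs, v ((pol P c).eval x0) * (G1 c * G2 c) = S0 := by
    rw [hS0, hFd]
  rw [hgoal]
  have hUU : (0 : ℝ) < (U : ℝ) * U := by positivity
  apply le_of_mul_le_mul_left _ hUU
  refine h4.trans (le_of_eq ?_)
  field_simp

end Pool.Agent.N913.LM
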