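import Pool.Agent.N913.LM.A1
import Pool.Agent.N913.KT.T7
import Pool.Agent.N913.KS.S6

set_option autoImplicit false
set_option linter.unusedSectionVars false

/-! Exponential sums over symmetric intervals; numerical facts. -/

namespace Pool.Agent.N913.LM

open Finset Polynomial Filter
open Pool.Agent.H373R2.T7
open Pool.Agent.H807R2.Dav
open Pool.Agent.N913.MT (evt_log_pow evt_log_ge)
open Pool.Agent.N913.KT (pol LK TK)

theorem supg (g : ℕ → ℝ) (hg0 : g 0 = 0) (hs : SupSmall (fun n => (g n : ℂ))) (V : ℕ) :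
    ∃ N0 : ℕ, ∀ N : ℕ, N0 ≤ N → ∀ M t : ℕ,
      ‖∑ m ∈ Icc (-(N : ℤ)) N, ((g m.natAbs : ℝ) : ℂ) * ee ((t : ℝ) * ((m : ℝ) / M))‖ ≤
        2 * (N / Real.log N ^ V) := by
  obtain ⟨N0, hN0⟩ := hs V
  refine ⟨N0, fun N hN M t => ?_⟩
  have half : ∀ α : ℝ, ‖∑ n ∈ Icc 1 N, ((g n : ℝ) : ℂ) * ee ((n : ℝ) * α)‖ ≤ N / Real.log N ^ V :=
    fun α => hN0 N hN α
  have hsplit : ∑ m ∈ Icc (-(N : ℤ)) N, ((g m.natAbs : ℝ) : ℂ) * ee ((t : ℝ) * ((m : ℝ) / M)) =
      ∑ n ∈ Icc 1 N, ((g n : ℝ) : ℂ) * ee ((n : ℝ) * (t / M)) +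
      ∑ n ∈ Icc 1 N, ((g n : ℝ) : ℂ) * ee ((n : ℝ) * (-(t / M))) := by
    have hpos : ∑ m ∈ Icc (1 : ℤ) N, ((g m.natAbs : ℝ) : ℂ) * ee ((t : ℝ) * ((m : ℝ) / M)) =
        ∑ n ∈ Icc 1 N, ((g n : ℝ) : ℂ) * ee ((n : ℝ) * (t / M)) := by
      symm
      apply sum_bij (fun (n : ℕ) _ => (n : ℤ))
      · intro n hn
        rw [mem_Icc] at hn ⊢
        exact ⟨by exact_mod_cast hn.1, by exact_mod_cast hn.2⟩
      · intro a _ b _ h
        exact_mod_cast h
      · intro m hm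
        rw [mem_Icc] at hm
        refine ⟨m.toNat, ?_, ?_⟩
        · rw [mem_Icc]
          omega
        · exact Int.toNat_of_nonneg (by omega)
      · intro n _
        rw [Int.natAbs_natCast]
        congr 2
        push_cast
        ring
    have hneg : ∑ m ∈ Icc (-(N : ℤ)) (-1), ((g m.natAbs : ℝ) : ℂ) * ee ((t : ℝ) * ((m : ℝ) / M)) =
        ∑ n ∈ Icc 1 N, ((g n : ℝ) : ℂ) * ee ((n : ℝ) * (-(t / M))) := by
      symm
      apply sum_bij (fun (n : ℕ) _ => -(n : ℤ))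
      · intro n hn
        rw [mem_Icc] at hn ⊢
        omega
      · intro a _ b _ h
        have : (a : ℤ) = b := by linarith
        exact_mod_cast this
      · intro m hm
        rw [mem_Icc] at hm
        refine ⟨(-m).toNat, ?_, ?_⟩
        · rw [mem_Icc]
          omega
        · omega
      · intro n _
        rw [Int.natAbs_neg, Int.natAbs_natCast]
        congr 2
        push_cast
        ring
    have hu : Icc (-(N : ℤ)) N = Icc (-(N : ℤ)) (-1) ∪ ({0} ∪ Icc (1 : ℤ) N) := by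
      ext m
      rw [mem_union, mem_union, mem_Icc, mem_Icc, mem_Icc, mem_singleton]
      omega
    have hv0 : g (0 : ℤ).natAbs = 0 := hg0
    rw [hu, sum_union, sum_union, sum_singleton, hv0, hpos, hneg]
    · push_cast
      ring
    · rw [disjoint_left]
      intro m hm hm'
      rw [mem_singleton] at hm
      rw [mem_Icc] at hm'
      omega
    · rw [disjoint_left]
      intro m hm hm'
      rw [mem_union, mem_singleton, mem_Icc] at hm'
      rw [mem_Icc] at hm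
      omega
  rw [hsplit]
  refine (norm_add_le _ _).trans ((add_le_add (half _) (half _)).trans ?_)
  linarith

def Dm (N C U : ℕ) : ℕ := (2 * C + 1) * N + U + 2
def Fm (N d A C : ℕ) : ℕ := A + 2 * C * (d + N) + 1
def Vm (N d A C U : ℕ) : ℕ := 2 * Fm N d A C + Dm N C U + U + 1
noncomputable def Um (N C U H : ℕ) : ℕ := ⌊(H : ℝ) / Real.log H ^ Dm N C U⌋₊
noncomputable def sm (N C U H : ℕ) : ℕ := 2 * (Um N C U H * (1 + TK C H) ^ N)
noncomputable def Ym (N d A C H : ℕ) : ℕ := H * LK H ^ Fm N d A C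

theorem facts (N d A C U : ℕ) : ∃ H0 : ℕ, ∀ H : ℕ, H0 ≤ H →
    3 ≤ H ∧ 1 ≤ Um N C U H ∧ 1 ≤ TK C H ∧ Real.log H ^ C ≤ TK C H ∧ H ≤ Ym N d A C H ∧
    (((d + 1 : ℕ) : ℝ) * (H * Real.log H ^ A) * (TK C H : ℝ) ^ d +
      (N : ℝ) * (H + sm N C U H) * (TK C H : ℝ) ^ N ≤ Ym N d A C H) ∧
    2 * ((Ym N d A C H : ℝ) / Real.log (Ym N d A C H) ^ Vm N d A C U) / Um N C U H ≤
      1 / 2 / Real.log H ^ U ∧
    2 * ((N : ℝ) * (2 * sm N C U H) * (2 * H + 1) ^ (N - 1)) ≤ 1 / 2 / Real.log H ^ U * (2 * H + 1) ^ N := by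
  obtain ⟨H0, hH0⟩ := eventually_atTop.1 ((evt_log_pow (1 / 8) (by norm_num) 2 (Dm N C U)).and
    ((evt_log_ge (8 + (d + 1) + 16 * N)).and (eventually_ge_atTop 3)))
  refine ⟨H0, fun H hH => ?_⟩
  obtain ⟨g1, g2, g4⟩ := hH0 H hH
  have hH3 : (3 : ℝ) ≤ H := by exact_mod_cast g4
  have hH0' : (0 : ℝ) < H := by linarith
  obtain ⟨ℓ, hℓ⟩ : ∃ ℓ, ℓ = Real.log H := ⟨_, rfl⟩
  rw [← hℓ] at g1 g2 ⊢
  have q0 : (0 : ℝ) ≤ N := Nat.cast_nonneg _
  have q1 : (0 : ℝ) ≤ d := Nat.cast_nonneg _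
  have l8 : 8 ≤ ℓ := by linarith
  have hℓ0 : 0 < ℓ := by linarith
  have hp1 : ∀ n : ℕ, 1 ≤ ℓ ^ n := fun n => one_le_pow₀ (by linarith)
  have hpp : ∀ n : ℕ, 0 < ℓ ^ n := fun n => by positivity
  have hpm : ∀ m n : ℕ, m ≤ n → ℓ ^ m ≤ ℓ ^ n := fun m n h => pow_le_pow_right₀ (by linarith) h
  have hLge : ℓ ≤ LK H := by unfold LK; rw [← hℓ]; exact Nat.le_ceil _
  have hLle : (LK H : ℝ) ≤ 2 * ℓ := by
    unfold LK; rw [← hℓ]
    have := Nat.ceil_lt_add_one hℓ0.le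
    linarith
  have hL0 : (0 : ℝ) < LK H := by linarith
  have hL1 : 1 ≤ LK H := by
    have : (1 : ℝ) ≤ LK H := by linarith
    exact_mod_cast this
  have hLsq : (LK H : ℝ) ≤ ℓ ^ 2 := by
    have := mul_le_mul_of_nonneg_right (show (2 : ℝ) ≤ ℓ by linarith) hℓ0.le
    rw [sq]; linarith
  have hT1 : 1 ≤ TK C H := Nat.one_le_pow _ _ hL1
  have hT1r : (1 : ℝ) ≤ TK C H := by exact_mod_cast hT1
  have hTge : ℓ ^ C ≤ TK C H := by
    unfold TK
    push_cast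
    exact pow_le_pow_left₀ hℓ0.le hLge _
  have hTle : (TK C H : ℝ) ≤ ℓ ^ (2 * C) := by
    unfold TK
    push_cast
    rw [pow_mul]
    exact pow_le_pow_left₀ hL0.le hLsq _
  have h1T : 1 + (TK C H : ℝ) ≤ ℓ ^ (2 * C + 1) := by
    rw [pow_succ]
    have := mul_le_mul_of_nonneg_left (show (2 : ℝ) ≤ ℓ by linarith) (hpp (2 * C)).le
    linarith [hp1 (2 * C)]
  have hHD : 2 * ℓ ^ Dm N C U ≤ H := by
    refine g1.trans ?_
    calc (H : ℝ) ^ (1 / 8 : ℝ) ≤ (H : ℝ) ^ (1 : ℝ) :=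
          Real.rpow_le_rpow_of_exponent_le (by linarith) (by norm_num)
      _ = H := Real.rpow_one _
  have hUle : (Um N C U H : ℝ) ≤ H / ℓ ^ Dm N C U := by
    unfold Um; rw [← hℓ]; exact Nat.floor_le (by positivity)
  have hUge : (H : ℝ) / ℓ ^ Dm N C U - 1 < Um N C U H := by
    unfold Um; rw [← hℓ]; exact Nat.sub_one_lt_floor _
  have hHD2 : 2 ≤ (H : ℝ) / ℓ ^ Dm N C U := by
    rw [le_div_iff₀ (hpp _)]; exact hHD
  have hUhalf : (H : ℝ) / ℓ ^ Dm N C U / 2 ≤ Um N C U H := by linarith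
  have hU1r : (1 : ℝ) ≤ Um N C U H := by linarith
  have hU1 : 1 ≤ Um N C U H := by exact_mod_cast hU1r
  have hsm : (sm N C U H : ℝ) ≤ 2 * H / ℓ ^ (U + 2) := by
    unfold sm
    push_cast
    have e1 : (1 + (TK C H : ℝ)) ^ N ≤ ℓ ^ ((2 * C + 1) * N) := by
      rw [pow_mul]
      exact pow_le_pow_left₀ (by linarith) h1T _
    calc 2 * ((Um N C U H : ℝ) * (1 + (TK C H : ℝ)) ^ N) ≤
          2 * (H / ℓ ^ Dm N C U * ℓ ^ ((2 * C + 1) * N)) := by gcongr
      _ = 2 * H / ℓ ^ (U + 2) := by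
          unfold Dm
          rw [show (2 * C + 1) * N + U + 2 = (2 * C + 1) * N + (U + 2) by ring, pow_add]
          field_simp
  have hsmH : (sm N C U H : ℝ) ≤ H := by
    refine hsm.trans ?_
    rw [div_le_iff₀ (hpp _)]
    have h1 : (2 : ℝ) ≤ ℓ ^ (U + 2) := by
      have h2 := hpm 1 (U + 2) (by omega)
      rw [pow_one] at h2
      linarith
    have := mul_le_mul_of_nonneg_left h1 hH0'.le
    linarith
  have hYge : (H : ℝ) * ℓ ^ Fm N d A C ≤ Ym N d A C H := by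
    unfold Ym
    push_cast
    apply mul_le_mul_of_nonneg_left _ hH0'.le
    exact pow_le_pow_left₀ hℓ0.le hLge _
  have hYH : H ≤ Ym N d A C H := by
    unfold Ym
    exact Nat.le_mul_of_pos_right _ (Nat.pow_pos hL1)
  have hYle : (Ym N d A C H : ℝ) ≤ H * ℓ ^ (2 * Fm N d A C) := by
    unfold Ym
    push_cast
    apply mul_le_mul_of_nonneg_left _ hH0'.le
    rw [pow_mul]
    exact pow_le_pow_left₀ hL0.le hLsq _
  have hlY : ℓ ≤ Real.log (Ym N d A C H) := by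
    rw [hℓ]
    exact Real.log_le_log hH0' (by exact_mod_cast hYH)
  refine ⟨g4, hU1, hT1, hTge, hYH, ?_, ?_, ?_⟩
  · refine le_trans ?_ hYge
    have e1 : (TK C H : ℝ) ^ d ≤ ℓ ^ (2 * C * (d + N)) := by
      calc (TK C H : ℝ) ^ d ≤ (ℓ ^ (2 * C)) ^ d := pow_le_pow_left₀ (by linarith) hTle _
        _ = ℓ ^ (2 * C * d) := by rw [← pow_mul]
        _ ≤ _ := hpm _ _ (by nlinarith)
    have e2 : (TK C H : ℝ) ^ N ≤ ℓ ^ (2 * C * (d + N)) := by
      calc (TK C H : ℝ) ^ N ≤ (ℓ ^ (2 * C)) ^ N := pow_le_pow_left₀ (by linarith) hTle _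
        _ = ℓ ^ (2 * C * N) := by rw [← pow_mul]
        _ ≤ _ := hpm _ _ (by nlinarith)
    have hA1 := hp1 A
    calc ((d + 1 : ℕ) : ℝ) * (H * ℓ ^ A) * (TK C H : ℝ) ^ d +
          (N : ℝ) * (H + sm N C U H) * (TK C H : ℝ) ^ N ≤
          ((d + 1 : ℕ) : ℝ) * (H * ℓ ^ A) * ℓ ^ (2 * C * (d + N)) +
          (N : ℝ) * (2 * (H * ℓ ^ A)) * ℓ ^ (2 * C * (d + N)) := by
          gcongr
          have : (H : ℝ) ≤ H * ℓ ^ A := by
            have := mul_le_mul_of_nonneg_left hA1 hH0'.le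
            linarith
          linarith
      _ = ((d + 1) + 2 * N) * (H * (ℓ ^ A * ℓ ^ (2 * C * (d + N)))) := by push_cast; ring
      _ ≤ ℓ * (H * (ℓ ^ A * ℓ ^ (2 * C * (d + N)))) := by
          apply mul_le_mul_of_nonneg_right _ (by positivity)
          linarith
      _ = H * ℓ ^ Fm N d A C := by
          unfold Fm
          rw [pow_succ, pow_add]
          ring
  · have hU0 : (0 : ℝ) < Um N C U H := by linarith
    have h1 : (Ym N d A C H : ℝ) / Real.log (Ym N d A C H) ^ Vm N d A C U ≤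
        H * ℓ ^ (2 * Fm N d A C) / ℓ ^ Vm N d A C U := by
      apply div_le_div₀ (by positivity) hYle (hpp _)
      exact pow_le_pow_left₀ hℓ0.le hlY _
    rw [div_le_iff₀ hU0]
    have h2 : 1 / 2 / ℓ ^ U * (H / ℓ ^ Dm N C U / 2) ≤ 1 / 2 / ℓ ^ U * Um N C U H :=
      mul_le_mul_of_nonneg_left hUhalf (by positivity)
    refine le_trans ?_ h2
    refine (mul_le_mul_of_nonneg_left h1 (by norm_num)).trans ?_
    have e1 : (H : ℝ) * ℓ ^ (2 * Fm N d A C) / ℓ ^ Vm N d A C U = H / (ℓ ^ Dm N C U * ℓ ^ U * ℓ) := by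
      unfold Vm
      rw [pow_succ, pow_add, pow_add]
      field_simp
    have e2 : 1 / 2 / ℓ ^ U * ((H : ℝ) / ℓ ^ Dm N C U / 2) = (H / (ℓ ^ Dm N C U * ℓ ^ U * ℓ)) * (ℓ / 4) := by
      field_simp
      ring
    rw [e1, e2, mul_comm]
    apply mul_le_mul_of_nonneg_left _ (by positivity)
    linarith
  · rcases Nat.eq_zero_or_pos N with hN | hN
    · rw [hN]
      have := hpp U
      push_cast
      simp only [zero_mul, mul_zero]
      positivity
    · have e0 : (2 * (H : ℝ) + 1) ^ N = (2 * H + 1) ^ (N - 1) * (2 * H + 1) := by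
        rw [← pow_succ]; congr 1; omega
      rw [e0]
      have hq : (0 : ℝ) ≤ (2 * H + 1) ^ (N - 1) := by positivity
      have h1 : 2 * ((N : ℝ) * (2 * sm N C U H)) ≤ 1 / 2 / ℓ ^ U * (2 * H + 1) := by
        calc 2 * ((N : ℝ) * (2 * sm N C U H)) ≤ 2 * ((N : ℝ) * (2 * (2 * H / ℓ ^ (U + 2)))) := by gcongr
          _ = (8 * N / ℓ ^ 2) * (H / ℓ ^ U) := by rw [pow_add]; field_simp; ring
          _ ≤ 1 * (H / ℓ ^ U) := by
              apply mul_le_mul_of_nonneg_right _ (by positivity)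
              rw [div_le_one (by positivity), sq]
              nlinarith
          _ ≤ 1 / 2 / ℓ ^ U * (2 * H + 1) := by
              rw [one_mul, div_div, div_mul_eq_mul_div, one_mul, div_le_div_iff₀ (by positivity) (by positivity)]
              nlinarith [hpp U]
      calc 2 * ((N : ℝ) * (2 * sm N C U H) * (2 * H + 1) ^ (N - 1)) =
            (2 * ((N : ℝ) * (2 * sm N C U H))) * (2 * H + 1) ^ (N - 1) := by ring
        _ ≤ (1 / 2 / ℓ ^ U * (2 * H + 1)) * (2 * H + 1) ^ (N - 1) := mul_le_mul_of_nonneg_right h1 hq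
        _ = _ := by ring

end Pool.Agent.N913.LM
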