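import Pool.Agent.N913.LM.A2

set_option autoImplicit false
set_option linter.unusedSectionVars false

/-! The mean square. -/

namespace Pool.Agent.N913.LM

open Finset Polynomial Filter
open Pool.Agent.H373R2.T7
open Pool.Agent.H807R2.Dav
open Pool.Agent.N913.KT (pol LK TK pol_size)
open Pool.Agent.N913.KS (Bx mem_Bx strip strip_card)

/-- the coefficient vectors -/
noncomputable def bx (N H : ℕ) : Finset (Fin N → ℤ) := Fintype.piFinset (fun _ => Icc (-(H : ℤ)) H)

theorem bx_eq (N H : ℕ) : bx N H = Bx H 1 (0 : Fin N → ℤ) := by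
  ext c
  rw [mem_Bx]
  unfold bx
  rw [Fintype.mem_piFinset]
  apply forall_congr'
  intro i
  rw [mem_Icc, ← abs_le, Nat.cast_one]
  exact ⟨fun h => ⟨h, one_dvd _⟩, fun h => h.1⟩

theorem bx_card (N H : ℕ) : ((bx N H).card : ℝ) = (2 * H + 1) ^ N := by
  unfold bx
  rw [Fintype.card_piFinset, prod_const, card_univ, Fintype.card_fin, Int.card_Icc]
  have : ((H : ℤ) + 1 - -(H : ℤ)).toNat = 2 * H + 1 := by omega
  rw [this]
  push_cast
  rfl

/-- the pairs of indices with coinciding points -/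
def clash {ι : Type} {m : ℕ} (I : Finset ι) (x0 : ι → ℤ) (x : ι → Fin m → ℤ) : ℕ :=
  ((I ×ˢ I).filter (fun p => x0 p.1 = x0 p.2 ∨ (∃ i, x0 p.1 = x p.2 i) ∨ ∃ i, x0 p.1 = x p.1 i)).card

theorem core (g : ℕ → ℝ) (hg0 : g 0 = 0) (hg1 : ∀ n, |g n| ≤ 1) (hs : SupSmall (fun n => (g n : ℂ)))
    (N m : ℕ) (hm : m + 2 ≤ N) (d A C U : ℕ) :
    ∃ H0 : ℕ, ∀ H : ℕ, H0 ≤ H → ∀ P : ℤ[X], P.natDegree ≤ d →
      (∀ i, |(P.coeff i : ℝ)| ≤ H * Real.log H ^ A) →
      ∀ (ι : Type) (I : Finset ι) (x0 : ι → ℤ) (x : ι → Fin m → ℤ),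
        (∀ n ∈ I, |(x0 n : ℝ)| ≤ Real.log H ^ C) → (∀ n ∈ I, ∀ i, |(x n i : ℝ)| ≤ Real.log H ^ C) →
        ∀ F : ι → (Fin m → ℤ) → ℝ, (∀ n y, |F n y| ≤ 1) →
        ∑ c ∈ bx N H, (∑ n ∈ I, g ((pol P c).eval (x0 n)).natAbs *
          F n (fun i => (pol P c).eval (x n i))) ^ 2 ≤
          (2 * H + 1) ^ N * (clash I x0 x + (I.card : ℝ) ^ 2 / Real.log H ^ U) := by
  classical
  obtain ⟨H1, hH1⟩ := facts N d A C U
  obtain ⟨N1, hN1⟩ := supg g hg0 hs (Vm N d A C U)
  refine ⟨max H1 N1, fun H hH P hPd hP ι I x0 x hx0 hx F hF => ?_⟩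
  obtain ⟨f0, f1, f2, f3, f4, f5, f6, f7⟩ := hH1 H ((le_max_left _ _).trans hH)
  have hHN1 : N1 ≤ Ym N d A C H := ((le_max_right _ _).trans hH).trans f4
  obtain ⟨Y, hY⟩ : ∃ Y, Y = Ym N d A C H := ⟨_, rfl⟩
  obtain ⟨Un, hUn⟩ : ∃ Un, Un = Um N C U H := ⟨_, rfl⟩
  obtain ⟨σ, hσ⟩ : ∃ σ, σ = sm N C U H := ⟨_, rfl⟩
  obtain ⟨T, hTd⟩ : ∃ T, T = TK C H := ⟨_, rfl⟩
  obtain ⟨B, hB⟩ : ∃ B : ℝ, B = 2 * (Y / Real.log Y ^ Vm N d A C U) := ⟨_, rfl⟩
  have hH3 : (3 : ℝ) ≤ H := by exact_mod_cast f0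
  have hℓ0 : 0 < Real.log H := Real.log_pos (by linarith)
  have hT1r : (1 : ℝ) ≤ T := by rw [hTd]; exact_mod_cast f2
  have hVv : ∀ t : ℕ, ‖∑ k ∈ Icc (-(Y : ℤ)) Y, (((fun k : ℤ => g k.natAbs) k : ℝ) : ℂ) *
      ee ((t : ℝ) * ((k : ℝ) / ((2 * Y + 1 : ℕ) : ℝ)))‖ ≤ B := by
    intro t
    rw [hB, hY]
    exact hN1 (Ym N d A C H) hHN1 (2 * Ym N d A C H + 1) t
  have hσ' : σ = 2 * (Un * (1 + T) ^ N) := by rw [hσ, hUn, hTd]; rfl
  have toT : ∀ y : ℤ, |(y : ℝ)| ≤ Real.log H ^ C → |y| ≤ T := by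
    intro y hy
    have h1 : |(y : ℝ)| ≤ T := by rw [hTd]; exact hy.trans f3
    have h2 : ((|y| : ℤ) : ℝ) ≤ ((T : ℤ) : ℝ) := by push_cast; exact h1
    exact_mod_cast h2
  have hYb : ∀ y : ℤ, |(y : ℝ)| ≤ Real.log H ^ C → ∀ c : Fin N → ℤ, (∀ i, |c i| ≤ H + σ) →
      |(pol P c).eval y| ≤ Y := by
    intro y hy c hc
    have h1 := pol_size P hPd (H * Real.log H ^ A) hP c ((H : ℝ) + σ) (by positivity) (fun i => by
      have h2 : ((|c i| : ℤ) : ℝ) ≤ ((H + σ : ℤ) : ℝ) := by exact_mod_cast hc i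
      push_cast at h2
      exact h2) y T hT1r (by rw [hTd]; exact hy.trans f3)
    have h2 : (((|(pol P c).eval y| : ℤ)) : ℝ) ≤ ((Y : ℤ) : ℝ) := by
      push_cast
      refine h1.trans ?_
      rw [hY, hσ, hTd]
      exact f5
    exact_mod_cast h2
  obtain ⟨D, hD⟩ : ∃ D : ι → (Fin N → ℤ) → ℝ, D = fun n c => g ((pol P c).eval (x0 n)).natAbs *
      F n (fun i => (pol P c).eval (x n i)) := ⟨_, rfl⟩
  have hD1 : ∀ n c, |D n c| ≤ 1 := by
    intro n c
    rw [hD]
    simp only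
    rw [abs_mul]
    calc _ ≤ (1 : ℝ) * 1 := mul_le_mul (hg1 _) (hF _ _) (abs_nonneg _) zero_le_one
      _ = 1 := one_mul _
  obtain ⟨Q, hQ⟩ : ∃ Q : ℝ, Q = (2 * H + 1) ^ N := ⟨_, rfl⟩
  have hQ0 : 0 ≤ Q := by rw [hQ]; positivity
  have hcard : ((bx N H).card : ℝ) = Q := by rw [hQ]; exact bx_card N H
  have e1 : ∑ c ∈ bx N H, (∑ n ∈ I, g ((pol P c).eval (x0 n)).natAbs *
      F n (fun i => (pol P c).eval (x n i))) ^ 2 = ∑ p ∈ I ×ˢ I, ∑ c ∈ bx N H, D p.1 c * D p.2 c := by
    rw [sum_comm]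
    apply sum_congr rfl
    intro c _
    rw [sum_product, sq, sum_mul_sum, hD]
  rw [e1, ← hQ]
  -- one pair
  have hpair : ∀ p ∈ I ×ˢ I, ∑ c ∈ bx N H, D p.1 c * D p.2 c ≤
      (if x0 p.1 = x0 p.2 ∨ (∃ i, x0 p.1 = x p.2 i) ∨ (∃ i, x0 p.1 = x p.1 i) then Q else 0) +
        Q / Real.log H ^ U := by
    intro p hp
    rw [mem_product] at hp
    obtain ⟨hp1, hp2⟩ := hp
    split_ifs with hcl
    · have h1 : ∑ c ∈ bx N H, D p.1 c * D p.2 c ≤ Q := by
        rw [← hcard, ← nsmul_one, ← sum_const]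
        apply sum_le_sum
        intro c _
        refine (le_abs_self _).trans ?_
        rw [abs_mul]
        calc _ ≤ (1 : ℝ) * 1 := mul_le_mul (hD1 _ _) (hD1 _ _) (abs_nonneg _) zero_le_one
          _ = 1 := one_mul _
      have : 0 ≤ Q / Real.log H ^ U := by positivity
      linarith
    · push Not at hcl
      obtain ⟨c1, c2, c3⟩ := hcl
      rw [zero_add]
      have key := pair P (fun k : ℤ => g k.natAbs) Y (2 * Y + 1) (by omega) B hVv (fun k => hg1 _) H σ Un T
        (by rw [hUn]; exact f1) (x0 p.1) (univ.image (x p.1)) (insert (x0 p.2) (univ.image (x p.2)))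
        (by
          rw [mem_image]
          rintro ⟨i, _, hi⟩
          exact c3 i hi.symm)
        (by
          rw [mem_insert, mem_image]
          rintro (h | ⟨i, _, hi⟩)
          · exact c1 h
          · exact c2 i hi.symm)
        (by
          have := (card_image_le (s := (univ : Finset (Fin m))) (f := x p.1))
          rw [card_univ, Fintype.card_fin] at this
          omega)
        (by
          have := (card_image_le (s := (univ : Finset (Fin m))) (f := x p.2))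
          rw [card_univ, Fintype.card_fin] at this
          have h2 := card_insert_le (x0 p.2) (univ.image (x p.2))
          omega)
        (toT _ (hx0 _ hp1))
        (by
          intro y hy
          rw [mem_image] at hy
          obtain ⟨i, _, rfl⟩ := hy
          exact toT _ (hx _ hp1 i))
        (by
          intro y hy
          rw [mem_insert, mem_image] at hy
          rcases hy with rfl | ⟨i, _, rfl⟩
          · exact toT _ (hx0 _ hp2)
          · exact toT _ (hx _ hp2 i))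
        (fun c => F p.1 (fun i => (pol P c).eval (x p.1 i)))
        (fun c => D p.2 c) (fun c => hF _ _) (fun c => hD1 _ _)
        (by
          intro c q hq hz
          congr 1
          funext i
          rw [pol_cv P c q hq, eval_add, hz _ (mem_image_of_mem _ (mem_univ i)), add_zero])
        (by
          intro c q hq hz
          rw [hD]
          simp only
          have h1 : (pol P (c + cv N q)).eval (x0 p.2) = (pol P c).eval (x0 p.2) := by
            rw [pol_cv P c q hq, eval_add, hz _ (mem_insert_self _ _), add_zero]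
          have h2 : (fun i => (pol P (c + cv N q)).eval (x p.2 i)) = fun i => (pol P c).eval (x p.2 i) := by
            funext i
            rw [pol_cv P c q hq, eval_add, hz _ (mem_insert_of_mem (mem_image_of_mem _ (mem_univ i))),
              add_zero]
          rw [h1, h2])
        (le_of_eq hσ'.symm) (hYb _ (hx0 _ hp1)) 0
      rw [← bx_eq, hcard] at key
      have e2 : ∑ c ∈ bx N H, D p.1 c * D p.2 c = ∑ c ∈ bx N H, (fun k : ℤ => g k.natAbs)
          ((pol P c).eval (x0 p.1)) * (F p.1 (fun i => (pol P c).eval (x p.1 i)) * D p.2 c) := by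
        apply sum_congr rfl
        intro c _
        rw [hD]
        simp only
        ring
      rw [e2]
      refine (le_abs_self _).trans (key.trans ?_)
      have h1 : B / Un ≤ 1 / 2 / Real.log H ^ U := by rw [hB, hY, hUn]; exact f6
      have h2 : 2 * ((strip H 1 σ (0 : Fin N → ℤ)).card : ℝ) ≤ 1 / 2 / Real.log H ^ U * Q := by
        rw [hQ]
        refine le_trans ?_ f7
        have h3 := strip_card H 1 σ (0 : Fin N → ℤ)
        rw [Fintype.card_fin] at h3
        rw [← hσ]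
        linarith
      have h3 := mul_le_mul_of_nonneg_left h1 hQ0
      have e3 : Q / Real.log H ^ U = Q * (1 / 2 / Real.log H ^ U) + 1 / 2 / Real.log H ^ U * Q := by
        field_simp
        ring
      rw [e3]
      exact add_le_add h3 h2
  refine (sum_le_sum hpair).trans (le_of_eq ?_)
  rw [sum_add_distrib, sum_const, ← sum_filter, sum_const, nsmul_eq_mul, nsmul_eq_mul, card_product]
  unfold clash
  push_cast
  ring

end Pool.Agent.N913.LM
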