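import Pool.Agent.N913.KU.U6
import Pool.Agent.H373R2.T7.SupLiou

set_option autoImplicit false
set_option linter.unusedSectionVars false

/-! Correlations of a Fourier uniform function at one linear form with two functions invariant under
translations; small vectors orthogonal to given vectors. -/

namespace Pool.Agent.N913.LM

open Finset
open Pool.Agent.H373R2.T7
open Pool.Agent.H807R2.Dav
open Pool.Agent.N913.KS (Bx mem_Bx strip)
open Pool.Agent.N913.KU (avgS u2)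

/-- the linear form with coefficient vector `x` -/
def dt {N : ℕ} (x c : Fin N → ℤ) : ℤ := ∑ j, x j * c j

theorem dt_add {N : ℕ} (x c c' : Fin N → ℤ) : dt x (c + c') = dt x c + dt x c' := by
  unfold dt
  rw [← sum_add_distrib]
  apply sum_congr rfl
  intro j _
  rw [Pi.add_apply]
  ring

theorem dt_comb {N : ℕ} (x u v : Fin N → ℤ) (a b : ℤ) :
    dt x (fun j => a * u j - b * v j) = a * dt x u - b * dt x v := by
  unfold dt
  rw [mul_sum, mul_sum, ← sum_sub_distrib]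
  apply sum_congr rfl
  intro j _
  ring

theorem dt_comb' {N : ℕ} (x u v : Fin N → ℤ) (a b : ℤ) :
    dt (fun j => a * u j - b * v j) x = a * dt u x - b * dt v x := by
  unfold dt
  rw [mul_sum, mul_sum, ← sum_sub_distrib]
  apply sum_congr rfl
  intro j _
  ring

theorem dt_le {N : ℕ} (x c : Fin N → ℤ) (T B : ℤ) (hT : 0 ≤ T) (hx : ∀ j, |x j| ≤ T)
    (hc : ∀ j, |c j| ≤ B) : |dt x c| ≤ N * (T * B) := by
  unfold dt
  refine (abs_sum_le_sum_abs _ _).trans ?_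
  have h := sum_le_card_nsmul (univ : Finset (Fin N)) (fun j => |x j * c j|) (T * B) (fun j _ => by
    rw [abs_mul]
    exact mul_le_mul (hx j) (hc j) (abs_nonneg _) hT)
  rw [card_univ, Fintype.card_fin, nsmul_eq_mul] at h
  exact h

theorem pairL {N : ℕ} (v : ℤ → ℝ) (Y M : ℕ) (hM : 2 * Y < M) (B : ℝ)
    (hV : ∀ t : ℕ, ‖∑ m ∈ Icc (-(Y : ℤ)) Y, (v m : ℂ) * ee ((t : ℝ) * ((m : ℝ) / M))‖ ≤ B)
    (hv : ∀ m : ℤ, |v m| ≤ 1) (H σ U E : ℕ) (hU : 1 ≤ U) (p0 : ℤ) (φ0 w1 w2 : Fin N → ℤ)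
    (h1 : dt φ0 w1 ≠ 0) (h2 : dt φ0 w2 ≠ 0) (hw1 : ∀ j, |w1 j| ≤ E) (hw2 : ∀ j, |w2 j| ≤ E)
    (G1 G2 : (Fin N → ℤ) → ℝ) (hG1 : ∀ c, |G1 c| ≤ 1) (hG2 : ∀ c, |G2 c| ≤ 1)
    (inv1 : ∀ c, ∀ a : ℤ, G1 (c + fun j => a * w1 j) = G1 c)
    (inv2 : ∀ c, ∀ a : ℤ, G2 (c + fun j => a * w2 j) = G2 c)
    (hσ : 2 * (U * E) ≤ σ)
    (hY : ∀ c : Fin N → ℤ, (∀ i, |c i| ≤ H + σ) → |p0 + dt φ0 c| ≤ Y) (cs : Fin N → ℤ) :
    |∑ c ∈ Bx H 1 cs, v (p0 + dt φ0 c) * (G1 c * G2 c)| ≤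
      (Bx H 1 cs).card * (B / U) + 2 * (strip H 1 σ cs).card := by
  classical
  have hU0 : (0 : ℝ) < U := by exact_mod_cast hU
  have hB0 : 0 ≤ B := (norm_nonneg _).trans (hV 0)
  obtain ⟨q, hq⟩ : ∃ q : ℕ × ℕ → Fin N → ℤ, q = fun y => (fun j => (y.1 : ℤ) * w1 j) +
      fun j => (y.2 : ℤ) * w2 j := ⟨_, rfl⟩
  have hqc : ∀ y ∈ range U ×ˢ range U, ∀ x : Fin N, |q y x| ≤ σ := by
    intro y hy x
    rw [mem_product, mem_range, mem_range] at hy
    rw [hq]
    simp only [Pi.add_apply]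
    have b1 : ∀ w : Fin N → ℤ, (∀ j, |w j| ≤ E) → ∀ a : ℕ, a < U → |(a : ℤ) * w x| ≤ (U * E : ℕ) := by
      intro w hw a ha
      rw [abs_mul, abs_of_nonneg (Int.natCast_nonneg a)]
      push_cast
      exact mul_le_mul (by exact_mod_cast ha.le) (hw x) (abs_nonneg _) (Int.natCast_nonneg _)
    refine (abs_add_le _ _).trans ((add_le_add (b1 w1 hw1 y.1 hy.1) (b1 w2 hw2 y.2 hy.2)).trans ?_)
    have h3 : ((2 * (U * E) : ℕ) : ℤ) ≤ σ := by exact_mod_cast hσ
    push_cast at h3 ⊢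
    linarith
  obtain ⟨F, hFd⟩ : ∃ F : (Fin N → ℤ) → ℝ, F = fun c => v (p0 + dt φ0 c) * (G1 c * G2 c) := ⟨_, rfl⟩
  have hFb : ∀ c : Fin N → ℤ, (∀ i, |c i| ≤ H + σ) → |F c| ≤ 1 := by
    intro c _
    rw [hFd]
    simp only
    rw [abs_mul, abs_mul]
    calc |v (p0 + dt φ0 c)| * (|G1 c| * |G2 c|) ≤ 1 * (1 * 1) :=
          mul_le_mul (hv _) (mul_le_mul (hG1 c) (hG2 c) (abs_nonneg _) zero_le_one) (by positivity)
            zero_le_one
      _ = 1 := by norm_num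
  have havg := avgS (range U ×ˢ range U) H 1 σ cs q (fun y _ x => by
    rw [Nat.cast_one]; exact one_dvd _) hqc F 1 hFb
  have hin : ∀ c ∈ Bx H 1 cs, |∑ y ∈ range U ×ˢ range U, F (c + q y)| ≤ B * U * 1 * 1 := by
    intro c hc
    rw [mem_Bx] at hc
    have hce : ∀ y ∈ range U ×ˢ range U, ∀ i, |(c + q y) i| ≤ H + σ := by
      intro y hy i
      rw [Pi.add_apply]
      have := abs_add_le (c i) (q y i)
      linarith [(hc i).1, hqc y hy i]
    have hdm : ∀ (w : Fin N → ℤ) (a : ℤ), dt φ0 (fun j => a * w j) = a * dt φ0 w := by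
      intro w a
      unfold dt
      rw [mul_sum]
      apply sum_congr rfl
      intro j _
      ring
    have v3 : ∀ y : ℕ × ℕ, p0 + dt φ0 (c + q y) = (p0 + dt φ0 c) + dt φ0 w1 * y.1 + dt φ0 w2 * y.2 := by
      intro y
      rw [hq]
      simp only
      rw [dt_add, dt_add, hdm, hdm]
      ring
    have g1 : ∀ y : ℕ × ℕ, G1 (c + q y) = G1 (c + fun j => (y.2 : ℤ) * w2 j) := by
      intro y
      rw [hq]
      simp only
      rw [add_comm (fun j => (y.1 : ℤ) * w1 j), ← add_assoc]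
      exact inv1 _ _
    have g2 : ∀ y : ℕ × ℕ, G2 (c + q y) = G2 (c + fun j => (y.1 : ℤ) * w1 j) := by
      intro y
      rw [hq]
      simp only
      rw [← add_assoc]
      exact inv2 _ _
    have hFe : ∀ y : ℕ × ℕ, F (c + q y) = G2 (c + fun j => (y.1 : ℤ) * w1 j) *
        G1 (c + fun j => (y.2 : ℤ) * w2 j) *
        v ((p0 + dt φ0 c) + dt φ0 w1 * y.1 + dt φ0 w2 * y.2) := by
      intro y
      rw [hFd]
      simp only
      rw [v3, g1, g2]
      ring
    rw [sum_congr rfl (fun y _ => hFe y), sum_product]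
    apply u2 v Y M hM B hV (fun a => G2 (c + fun j => (a : ℤ) * w1 j))
      (fun b => G1 (c + fun j => (b : ℤ) * w2 j)) U 1 1 zero_le_one zero_le_one
      (fun a _ => hG2 _) (fun b _ => hG1 _) _ _ _ h1 h2
    intro a ha b hb
    have h1 := hY _ (hce (a, b) (mem_product.2 ⟨ha, hb⟩))
    rw [v3] at h1
    exact h1
  rw [card_product, card_range] at havg
  obtain ⟨S0, hS0⟩ : ∃ S0, S0 = ∑ c ∈ Bx H 1 cs, F c := ⟨_, rfl⟩
  obtain ⟨S3, hS3⟩ : ∃ S3, S3 = ∑ c ∈ Bx H 1 cs, ∑ y ∈ range U ×ˢ range U, F (c + q y) := ⟨_, rfl⟩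
  rw [← hS0, ← hS3] at havg
  have h3 : |S3| ≤ (Bx H 1 cs).card * (B * U * 1 * 1) := by
    rw [hS3]
    refine (abs_sum_le_sum_abs _ _).trans ?_
    rw [← nsmul_eq_mul]
    exact sum_le_card_nsmul _ _ _ hin
  push_cast at havg
  have h4 : (U : ℝ) * U * |S0| ≤ (Bx H 1 cs).card * (B * U * 1 * 1) +
      U * U * (2 * 1 * (strip H 1 σ cs).card) := by
    have e : (U : ℝ) * U * |S0| = |(U : ℝ) * U * S0| := by
      rw [abs_mul, abs_of_nonneg (by positivity : (0 : ℝ) ≤ (U : ℝ) * U)]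
    rw [e]
    have e2 : (U : ℝ) * U * S0 = S3 - (S3 - U * U * S0) := by ring
    rw [e2]
    exact (abs_sub _ _).trans (add_le_add h3 havg)
  have hgoal : ∑ c ∈ Bx H 1 cs, v (p0 + dt φ0 c) * (G1 c * G2 c) = S0 := by
    rw [hS0, hFd]
  rw [hgoal]
  have hUU : (0 : ℝ) < (U : ℝ) * U := by positivity
  apply le_of_mul_le_mul_left _ hUU
  refine h4.trans (le_of_eq ?_)
  field_simp

/-- the vector `x` is a rational linear combination of the vectors `y i` -/
def Dep {N m : ℕ} (x : Fin N → ℤ) (y : Fin m → Fin N → ℤ) : Prop :=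
  ∃ a : Fin m → ℚ, ∀ j, (x j : ℚ) = ∑ i, a i * y i j

def ek : ℕ → ℕ
  | 0 => 0
  | k + 1 => 2 * ek k + 1

theorem dual (N T : ℕ) : ∀ (k : ℕ) (y : Fin k → Fin N → ℤ), (∀ i j, |y i j| ≤ T) →
    ∃ W : Set (Fin N → ℤ), (∀ w ∈ W, (∀ i, dt (y i) w = 0) ∧
      ∀ j, |w j| ≤ (((2 * N * T + 1) ^ ek k : ℕ) : ℤ)) ∧
      ∀ x : Fin N → ℤ, (∀ w ∈ W, dt x w = 0) → Dep x y := by
  classical
  intro k
  induction k with
  | zero =>
    intro y _
    refine ⟨Set.range (fun j : Fin N => (Pi.single j 1 : Fin N → ℤ)), ?_, ?_⟩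
    · rintro w ⟨i, rfl⟩
      refine ⟨fun i => i.elim0, fun j => ?_⟩
      simp only [ek, pow_zero]
      by_cases h : j = i
      · subst h; simp
      · simp [h]
    · intro x hx
      refine ⟨fun i => i.elim0, fun j => ?_⟩
      have h1 := hx _ ⟨j, rfl⟩
      unfold dt at h1
      rw [sum_eq_single j (fun b _ hb => by simp [hb]) (fun h => absurd (mem_univ _) h)] at h1
      simp only [Pi.single_eq_same, mul_one] at h1
      rw [h1]
      simp
  | succ k ih =>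
    intro y hy
    obtain ⟨W', hW1, hW2⟩ := ih (fun i => y i.succ) (fun i j => hy i.succ j)
    obtain ⟨Q, hQ⟩ : ∃ Q : ℕ, Q = 2 * N * T + 1 := ⟨_, rfl⟩
    rw [← hQ] at hW1 ⊢
    have hQ1 : 1 ≤ Q := by omega
    by_cases h : ∃ u ∈ W', dt (y 0) u ≠ 0
    · obtain ⟨u0, hu0, hu1⟩ := h
      refine ⟨{w | ∃ v ∈ W', w = fun j => dt (y 0) u0 * v j - dt (y 0) v * u0 j}, ?_, ?_⟩
      · rintro w ⟨v, hv, rfl⟩
        refine ⟨fun i => ?_, fun j => ?_⟩
        · rw [dt_comb]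
          refine Fin.cases ?_ (fun i => ?_) i
          · ring
          · rw [(hW1 v hv).1 i, (hW1 u0 hu0).1 i]
            ring
        · have b1 : ∀ u ∈ W', |dt (y 0) u| ≤ N * (T * ((Q ^ ek k : ℕ) : ℤ)) := fun u hu =>
            dt_le (y 0) u T _ (Int.natCast_nonneg _) (hy 0) (hW1 u hu).2
          have b2 : |dt (y 0) u0 * v j| ≤ N * (T * ((Q ^ ek k : ℕ) : ℤ)) * ((Q ^ ek k : ℕ) : ℤ) := by
            rw [abs_mul]
            exact mul_le_mul (b1 u0 hu0) ((hW1 v hv).2 j) (abs_nonneg _) (by positivity)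
          have b3 : |dt (y 0) v * u0 j| ≤ N * (T * ((Q ^ ek k : ℕ) : ℤ)) * ((Q ^ ek k : ℕ) : ℤ) := by
            rw [abs_mul]
            exact mul_le_mul (b1 v hv) ((hW1 u0 hu0).2 j) (abs_nonneg _) (by positivity)
          refine (abs_sub _ _).trans ((add_le_add b2 b3).trans ?_)
          have e1 : (((Q ^ ek (k + 1) : ℕ)) : ℤ) = (Q : ℤ) * (((Q ^ ek k : ℕ) : ℤ) * ((Q ^ ek k : ℕ) : ℤ)) := by
            simp only [ek]
            push_cast
            rw [pow_succ, two_mul, pow_add]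
            ring
          rw [e1]
          have e2 : (N : ℤ) * (T * ((Q ^ ek k : ℕ) : ℤ)) * ((Q ^ ek k : ℕ) : ℤ) +
              (N : ℤ) * (T * ((Q ^ ek k : ℕ) : ℤ)) * ((Q ^ ek k : ℕ) : ℤ) =
              (2 * N * T : ℤ) * (((Q ^ ek k : ℕ) : ℤ) * ((Q ^ ek k : ℕ) : ℤ)) := by ring
          rw [e2]
          apply mul_le_mul_of_nonneg_right _ (by positivity)
          rw [hQ]
          push_cast
          linarith
      · intro x hx
        obtain ⟨a, ha⟩ := hW2 (fun j => dt (y 0) u0 * x j - dt x u0 * y 0 j) (by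
          intro v hv
          have h1 := hx _ ⟨v, hv, rfl⟩
          rw [dt_comb] at h1
          rw [dt_comb']
          linarith)
        have hD : ((dt (y 0) u0 : ℤ) : ℚ) ≠ 0 := by exact_mod_cast hu1
        refine ⟨Fin.cons ((dt x u0 : ℚ) / dt (y 0) u0) (fun i => a i / dt (y 0) u0), fun j => ?_⟩
        rw [Fin.sum_univ_succ, Fin.cons_zero]
        simp only [Fin.cons_succ]
        have h1 := ha j
        push_cast at h1
        have h2 : ∑ i, a i / (dt (y 0) u0 : ℚ) * (y (Fin.succ i) j : ℚ) =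
            (∑ i, a i * (y (Fin.succ i) j : ℚ)) / dt (y 0) u0 := by
          rw [sum_div]
          apply sum_congr rfl
          intro i _
          ring
        rw [h2, ← h1]
        field_simp
        ring
    · push Not at h
      refine ⟨W', ?_, ?_⟩
      · intro w hw
        refine ⟨fun i => ?_, fun j => ?_⟩
        · refine Fin.cases (h w hw) (fun i => (hW1 w hw).1 i) i
        · refine ((hW1 w hw).2 j).trans ?_
          have : Q ^ ek k ≤ Q ^ ek (k + 1) := Nat.pow_le_pow_right hQ1 (by simp only [ek]; omega)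
          exact_mod_cast this
      · intro x hx
        obtain ⟨a, ha⟩ := hW2 x hx
        refine ⟨Fin.cons 0 a, fun j => ?_⟩
        rw [Fin.sum_univ_succ, Fin.cons_zero]
        simp only [Fin.cons_succ]
        rw [zero_mul, zero_add]
        exact ha j

end Pool.Agent.N913.LM
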