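import Pool.Agent.N913.LM.A2
import Pool.Agent.N913.LM.B1

set_option autoImplicit false
set_option linter.unusedSectionVars false

/-! Numerical facts for linear forms. -/

namespace Pool.Agent.N913.LM

open Finset Filter
open Pool.Agent.N913.MT (evt_log_pow evt_log_ge)
open Pool.Agent.N913.KT (LK TK)

def DL (e C U : ℕ) : ℕ := (2 * C + 1) * e + U + 2
def FL (A C : ℕ) : ℕ := A + 2 * C + 1
def VL (e A C U : ℕ) : ℕ := 2 * FL A C + DL e C U + U + 1
noncomputable def UL (e C U H : ℕ) : ℕ := ⌊(H : ℝ) / Real.log H ^ DL e C U⌋₊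
noncomputable def EL (N e C H : ℕ) : ℕ := (2 * N * TK C H + 1) ^ e
noncomputable def sL (N e C U H : ℕ) : ℕ := 2 * (UL e C U H * EL N e C H)
noncomputable def YL (A C H : ℕ) : ℕ := H * LK H ^ FL A C

theorem factsL (N e A C U : ℕ) : ∃ H0 : ℕ, ∀ H : ℕ, H0 ≤ H →
    3 ≤ H ∧ 1 ≤ UL e C U H ∧ 1 ≤ TK C H ∧ Real.log H ^ C ≤ TK C H ∧ H ≤ YL A C H ∧
    ((H * Real.log H ^ A) + (N : ℝ) * (TK C H * (H + sL N e C U H)) ≤ YL A C H) ∧
    2 * ((YL A C H : ℝ) / Real.log (YL A C H) ^ VL e A C U) / UL e C U H ≤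
      1 / 2 / Real.log H ^ U ∧
    2 * ((N : ℝ) * (2 * sL N e C U H) * (2 * H + 1) ^ (N - 1)) ≤ 1 / 2 / Real.log H ^ U * (2 * H + 1) ^ N := by
  obtain ⟨H0, hH0⟩ := eventually_atTop.1 ((evt_log_pow (1 / 8) (by norm_num) 2 (DL e C U)).and
    ((evt_log_ge (8 + 16 * N)).and (eventually_ge_atTop 3)))
  refine ⟨H0, fun H hH => ?_⟩
  obtain ⟨g1, g2, g4⟩ := hH0 H hH
  have hH3 : (3 : ℝ) ≤ H := by exact_mod_cast g4
  have hH0' : (0 : ℝ) < H := by linarith
  obtain ⟨ℓ, hℓ⟩ : ∃ ℓ, ℓ = Real.log H := ⟨_, rfl⟩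
  rw [← hℓ] at g1 g2 ⊢
  have q0 : (0 : ℝ) ≤ N := Nat.cast_nonneg _
  have l8 : 8 ≤ ℓ := by linarith
  have hℓ0 : 0 < ℓ := by linarith
  have hp1 : ∀ n : ℕ, 1 ≤ ℓ ^ n := fun n => one_le_pow₀ (by linarith)
  have hpp : ∀ n : ℕ, 0 < ℓ ^ n := fun n => by positivity
  have hpm : ∀ m n : ℕ, m ≤ n → ℓ ^ m ≤ ℓ ^ n := fun m n h => pow_le_pow_right₀ (by linarith) h
  have hLge : ℓ ≤ LK H := by unfold LK; rw [← hℓ]; exact Nat.le_ceil _
  have hLle : (LK H : ℝ) ≤ 2 * ℓ := by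
    unfold LK; rw [← hℓ]
    have := Nat.ceil_lt_add_one hℓ0.le
    linarith
  have hL0 : (0 : ℝ) < LK H := by linarith
  have hL1 : 1 ≤ LK H := by
    have : (1 : ℝ) ≤ LK H := by linarith
    exact_mod_cast this
  have hLsq : (LK H : ℝ) ≤ ℓ ^ 2 := by
    have := mul_le_mul_of_nonneg_right (show (2 : ℝ) ≤ ℓ by linarith) hℓ0.le
    rw [sq]; linarith
  have hT1 : 1 ≤ TK C H := Nat.one_le_pow _ _ hL1
  have hT1r : (1 : ℝ) ≤ TK C H := by exact_mod_cast hT1
  have hTge : ℓ ^ C ≤ TK C H := by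
    unfold TK
    push_cast
    exact pow_le_pow_left₀ hℓ0.le hLge _
  have hTle : (TK C H : ℝ) ≤ ℓ ^ (2 * C) := by
    unfold TK
    push_cast
    rw [pow_mul]
    exact pow_le_pow_left₀ hL0.le hLsq _
  have hEle : (EL N e C H : ℝ) ≤ ℓ ^ ((2 * C + 1) * e) := by
    unfold EL
    push_cast
    rw [pow_mul]
    apply pow_le_pow_left₀ (by positivity)
    calc 2 * (N : ℝ) * TK C H + 1 ≤ (2 * N + 1) * TK C H := by nlinarith
      _ ≤ ℓ * ℓ ^ (2 * C) := mul_le_mul (by linarith) hTle (by positivity) hℓ0.le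
      _ = ℓ ^ (2 * C + 1) := by rw [pow_succ]; ring
  have hHD : 2 * ℓ ^ DL e C U ≤ H := by
    refine g1.trans ?_
    calc (H : ℝ) ^ (1 / 8 : ℝ) ≤ (H : ℝ) ^ (1 : ℝ) :=
          Real.rpow_le_rpow_of_exponent_le (by linarith) (by norm_num)
      _ = H := Real.rpow_one _
  have hUle : (UL e C U H : ℝ) ≤ H / ℓ ^ DL e C U := by
    unfold UL; rw [← hℓ]; exact Nat.floor_le (by positivity)
  have hUge : (H : ℝ) / ℓ ^ DL e C U - 1 < UL e C U H := by
    unfold UL; rw [← hℓ]; exact Nat.sub_one_lt_floor _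
  have hHD2 : 2 ≤ (H : ℝ) / ℓ ^ DL e C U := by
    rw [le_div_iff₀ (hpp _)]; exact hHD
  have hUhalf : (H : ℝ) / ℓ ^ DL e C U / 2 ≤ UL e C U H := by linarith
  have hU1r : (1 : ℝ) ≤ UL e C U H := by linarith
  have hU1 : 1 ≤ UL e C U H := by exact_mod_cast hU1r
  have hsm : (sL N e C U H : ℝ) ≤ 2 * H / ℓ ^ (U + 2) := by
    unfold sL
    push_cast
    calc 2 * ((UL e C U H : ℝ) * (EL N e C H : ℝ)) ≤
          2 * (H / ℓ ^ DL e C U * ℓ ^ ((2 * C + 1) * e)) := by gcongr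
      _ = 2 * H / ℓ ^ (U + 2) := by
          unfold DL
          rw [show (2 * C + 1) * e + U + 2 = (2 * C + 1) * e + (U + 2) by ring, pow_add]
          field_simp
  have hsmH : (sL N e C U H : ℝ) ≤ H := by
    refine hsm.trans ?_
    rw [div_le_iff₀ (hpp _)]
    have h1 : (2 : ℝ) ≤ ℓ ^ (U + 2) := by
      have h2 := hpm 1 (U + 2) (by omega)
      rw [pow_one] at h2
      linarith
    have := mul_le_mul_of_nonneg_left h1 hH0'.le
    linarith
  have hYge : (H : ℝ) * ℓ ^ FL A C ≤ YL A C H := by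
    unfold YL
    push_cast
    apply mul_le_mul_of_nonneg_left _ hH0'.le
    exact pow_le_pow_left₀ hℓ0.le hLge _
  have hYH : H ≤ YL A C H := by
    unfold YL
    exact Nat.le_mul_of_pos_right _ (Nat.pow_pos hL1)
  have hYle : (YL A C H : ℝ) ≤ H * ℓ ^ (2 * FL A C) := by
    unfold YL
    push_cast
    apply mul_le_mul_of_nonneg_left _ hH0'.le
    rw [pow_mul]
    exact pow_le_pow_left₀ hL0.le hLsq _
  have hlY : ℓ ≤ Real.log (YL A C H) := by
    rw [hℓ]
    exact Real.log_le_log hH0' (by exact_mod_cast hYH)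
  refine ⟨g4, hU1, hT1, hTge, hYH, ?_, ?_, ?_⟩
  · refine le_trans ?_ hYge
    have hA1 := hp1 A
    have hC1 := hp1 (2 * C)
    have i1 : (H : ℝ) * ℓ ^ A ≤ H * ℓ ^ (A + 2 * C) := by
      apply mul_le_mul_of_nonneg_left _ hH0'.le
      exact hpm _ _ (by omega)
    have i2 : (N : ℝ) * (TK C H * (H + sL N e C U H)) ≤ 2 * N * (H * ℓ ^ (A + 2 * C)) := by
      calc (N : ℝ) * (TK C H * (H + sL N e C U H)) ≤ N * (ℓ ^ (A + 2 * C) * (H + H)) := by
            gcongr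
            exact hTle.trans (hpm _ _ (by omega))
        _ = _ := by ring
    calc (H : ℝ) * ℓ ^ A + (N : ℝ) * (TK C H * (H + sL N e C U H)) ≤
          (1 + 2 * N) * (H * ℓ ^ (A + 2 * C)) := by linarith
      _ ≤ ℓ * (H * ℓ ^ (A + 2 * C)) := by
          apply mul_le_mul_of_nonneg_right _ (by positivity)
          linarith
      _ = H * ℓ ^ FL A C := by
          unfold FL
          rw [pow_succ]
          ring
  · have hU0 : (0 : ℝ) < UL e C U H := by linarith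
    have h1 : (YL A C H : ℝ) / Real.log (YL A C H) ^ VL e A C U ≤
        H * ℓ ^ (2 * FL A C) / ℓ ^ VL e A C U := by
      apply div_le_div₀ (by positivity) hYle (hpp _)
      exact pow_le_pow_left₀ hℓ0.le hlY _
    rw [div_le_iff₀ hU0]
    have h2 : 1 / 2 / ℓ ^ U * (H / ℓ ^ DL e C U / 2) ≤ 1 / 2 / ℓ ^ U * UL e C U H :=
      mul_le_mul_of_nonneg_left hUhalf (by positivity)
    refine le_trans ?_ h2
    refine (mul_le_mul_of_nonneg_left h1 (by norm_num)).trans ?_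
    have e1 : (H : ℝ) * ℓ ^ (2 * FL A C) / ℓ ^ VL e A C U = H / (ℓ ^ DL e C U * ℓ ^ U * ℓ) := by
      unfold VL
      rw [pow_succ, pow_add, pow_add]
      field_simp
    have e2 : 1 / 2 / ℓ ^ U * ((H : ℝ) / ℓ ^ DL e C U / 2) = (H / (ℓ ^ DL e C U * ℓ ^ U * ℓ)) * (ℓ / 4) := by
      field_simp
      ring
    rw [e1, e2, mul_comm]
    apply mul_le_mul_of_nonneg_left _ (by positivity)
    linarith
  · rcases Nat.eq_zero_or_pos N with hN | hN
    · rw [hN]
      have := hpp U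
      push_cast
      simp only [zero_mul, mul_zero]
      positivity
    · have e0 : (2 * (H : ℝ) + 1) ^ N = (2 * H + 1) ^ (N - 1) * (2 * H + 1) := by
        rw [← pow_succ]; congr 1; omega
      rw [e0]
      have hq : (0 : ℝ) ≤ (2 * H + 1) ^ (N - 1) := by positivity
      have h1 : 2 * ((N : ℝ) * (2 * sL N e C U H)) ≤ 1 / 2 / ℓ ^ U * (2 * H + 1) := by
        calc 2 * ((N : ℝ) * (2 * sL N e C U H)) ≤ 2 * ((N : ℝ) * (2 * (2 * H / ℓ ^ (U + 2)))) := by gcongr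
          _ = (8 * N / ℓ ^ 2) * (H / ℓ ^ U) := by rw [pow_add]; field_simp; ring
          _ ≤ 1 * (H / ℓ ^ U) := by
              apply mul_le_mul_of_nonneg_right _ (by positivity)
              rw [div_le_one (by positivity), sq]
              nlinarith
          _ ≤ 1 / 2 / ℓ ^ U * (2 * H + 1) := by
              rw [one_mul, div_div, div_mul_eq_mul_div, one_mul, div_le_div_iff₀ (by positivity) (by positivity)]
              nlinarith [hpp U]
      calc 2 * ((N : ℝ) * (2 * sL N e C U H) * (2 * H + 1) ^ (N - 1)) =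
            (2 * ((N : ℝ) * (2 * sL N e C U H))) * (2 * H + 1) ^ (N - 1) := by ring
        _ ≤ (1 / 2 / ℓ ^ U * (2 * H + 1)) * (2 * H + 1) ^ (N - 1) := mul_le_mul_of_nonneg_right h1 hq
        _ = _ := by ring

end Pool.Agent.N913.LM
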