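import Pool.Agent.N913.LM.A3
import Pool.Agent.N913.LM.B2

set_option autoImplicit false
set_option linter.unusedSectionVars false

/-! The mean square for linear forms. -/

namespace Pool.Agent.N913.LM

open Finset Filter
open Pool.Agent.H373R2.T7
open Pool.Agent.H807R2.Dav
open Pool.Agent.N913.KT (LK TK)
open Pool.Agent.N913.KS (Bx mem_Bx strip strip_card)

/-- some vector is orthogonal to the `y i` and not to `x` -/
def Sep {N m : ℕ} (x : Fin N → ℤ) (y : Fin m → Fin N → ℤ) : Prop :=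
  ∃ w : Fin N → ℤ, (∀ i, dt (y i) w = 0) ∧ dt x w ≠ 0

theorem not_dep {N m : ℕ} (x : Fin N → ℤ) (y : Fin m → Fin N → ℤ) (h : Sep x y) : ¬ Dep x y := by
  rintro ⟨a, ha⟩
  obtain ⟨w, h1, h2⟩ := h
  apply h2
  have e : ((dt x w : ℤ) : ℚ) = ∑ i, a i * ((dt (y i) w : ℤ) : ℚ) := by
    unfold dt
    push_cast
    simp_rw [ha, mul_sum, sum_mul]
    rw [sum_comm]
    apply sum_congr rfl
    intro i _
    apply sum_congr rfl
    intro j _
    ring
  have : ((dt x w : ℤ) : ℚ) = 0 := by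
    rw [e]
    apply sum_eq_zero
    intro i _
    rw [h1 i]
    simp
  exact_mod_cast this

theorem small_sep (N T : ℕ) {m : ℕ} (x : Fin N → ℤ) (y : Fin m → Fin N → ℤ) (hy : ∀ i j, |y i j| ≤ T)
    (h : Sep x y) : ∃ w : Fin N → ℤ, (∀ i, dt (y i) w = 0) ∧ dt x w ≠ 0 ∧
      ∀ j, |w j| ≤ (((2 * N * T + 1) ^ ek m : ℕ) : ℤ) := by
  obtain ⟨W, hW1, hW2⟩ := dual N T m y hy
  by_contra hcon
  push Not at hcon
  apply not_dep x y h
  apply hW2
  intro w hw
  by_contra h0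
  obtain ⟨j, hj⟩ := hcon w (hW1 w hw).1 h0
  exact absurd ((hW1 w hw).2 j) (not_le.2 hj)

open Classical in
/-- the pairs of indices in special position -/
noncomputable def clashL {ι : Type} {N m : ℕ} (I : Finset ι) (φ0 : ι → Fin N → ℤ)
    (φ : ι → Fin m → Fin N → ℤ) : ℕ :=
  ((I ×ˢ I).filter (fun p => ¬ Sep (φ0 p.1) (φ p.1) ∨
    ¬ Sep (φ0 p.1) (Fin.cons (φ0 p.2) (φ p.2) : Fin (m + 1) → Fin N → ℤ))).card

theorem coreL (g : ℕ → ℝ) (hg0 : g 0 = 0) (hg1 : ∀ n, |g n| ≤ 1) (hs : SupSmall (fun n => (g n : ℂ)))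
    (N m A C U : ℕ) :
    ∃ H0 : ℕ, ∀ H : ℕ, H0 ≤ H →
      ∀ (ι : Type) (I : Finset ι) (p0 : ι → ℤ) (φ0 : ι → Fin N → ℤ) (p : ι → Fin m → ℤ)
        (φ : ι → Fin m → Fin N → ℤ),
        (∀ n ∈ I, |(p0 n : ℝ)| ≤ H * Real.log H ^ A) →
        (∀ n ∈ I, ∀ j, |(φ0 n j : ℝ)| ≤ Real.log H ^ C) →
        (∀ n ∈ I, ∀ i j, |(φ n i j : ℝ)| ≤ Real.log H ^ C) →
        ∀ F : ι → (Fin m → ℤ) → ℝ, (∀ n y, |F n y| ≤ 1) →
        ∑ c ∈ bx N H, (∑ n ∈ I, g (p0 n + dt (φ0 n) c).natAbs *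
          F n (fun i => p n i + dt (φ n i) c)) ^ 2 ≤
          (2 * H + 1) ^ N * (clashL I φ0 φ + (I.card : ℝ) ^ 2 / Real.log H ^ U) := by
  classical
  obtain ⟨e, he⟩ : ∃ e, e = ek (m + 1) := ⟨_, rfl⟩
  obtain ⟨H1, hH1⟩ := factsL N e A C U
  obtain ⟨N1, hN1⟩ := supg g hg0 hs (VL e A C U)
  refine ⟨max H1 N1, fun H hH ι I p0 φ0 p φ hp0 hφ0 hφ F hF => ?_⟩
  obtain ⟨f0, f1, f2, f3, f4, f5, f6, f7⟩ := hH1 H ((le_max_left _ _).trans hH)
  have hHN1 : N1 ≤ YL A C H := ((le_max_right _ _).trans hH).trans f4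
  obtain ⟨Y, hY⟩ : ∃ Y, Y = YL A C H := ⟨_, rfl⟩
  obtain ⟨Un, hUn⟩ : ∃ Un, Un = UL e C U H := ⟨_, rfl⟩
  obtain ⟨σ, hσ⟩ : ∃ σ, σ = sL N e C U H := ⟨_, rfl⟩
  obtain ⟨T, hTd⟩ : ∃ T, T = TK C H := ⟨_, rfl⟩
  obtain ⟨E, hE⟩ : ∃ E, E = EL N e C H := ⟨_, rfl⟩
  obtain ⟨B, hB⟩ : ∃ B : ℝ, B = 2 * (Y / Real.log Y ^ VL e A C U) := ⟨_, rfl⟩
  have hH3 : (3 : ℝ) ≤ H := by exact_mod_cast f0
  have hℓ0 : 0 < Real.log H := Real.log_pos (by linarith)
  have hVv : ∀ t : ℕ, ‖∑ k ∈ Icc (-(Y : ℤ)) Y, (((fun k : ℤ => g k.natAbs) k : ℝ) : ℂ) *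
      ee ((t : ℝ) * ((k : ℝ) / ((2 * Y + 1 : ℕ) : ℝ)))‖ ≤ B := by
    intro t
    rw [hB, hY]
    exact hN1 (YL A C H) hHN1 (2 * YL A C H + 1) t
  have hσ' : σ = 2 * (Un * E) := by rw [hσ, hUn, hE]; rfl
  have hEe : E = (2 * N * T + 1) ^ ek (m + 1) := by rw [hE, hTd, ← he]; rfl
  have toT : ∀ y : ℤ, |(y : ℝ)| ≤ Real.log H ^ C → |y| ≤ T := by
    intro y hy
    have h1 : |(y : ℝ)| ≤ T := by rw [hTd]; exact hy.trans f3
    have h2 : ((|y| : ℤ) : ℝ) ≤ ((T : ℤ) : ℝ) := by push_cast; exact h1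
    exact_mod_cast h2
  have hYb : ∀ n ∈ I, ∀ c : Fin N → ℤ, (∀ i, |c i| ≤ H + σ) → |p0 n + dt (φ0 n) c| ≤ Y := by
    intro n hn c hc
    have h1 := dt_le (φ0 n) c T (H + σ) (Int.natCast_nonneg _) (fun j => toT _ (hφ0 n hn j)) hc
    have h2 : ((|dt (φ0 n) c| : ℤ) : ℝ) ≤ (((N : ℤ) * (T * (H + σ)) : ℤ) : ℝ) := by exact_mod_cast h1
    have h3 : ((|p0 n + dt (φ0 n) c| : ℤ) : ℝ) ≤ ((Y : ℤ) : ℝ) := by
      push_cast at h2 ⊢
      refine (abs_add_le _ _).trans ((add_le_add (hp0 n hn) h2).trans ?_)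
      rw [hTd, hσ, hY]
      exact f5
    exact_mod_cast h3
  obtain ⟨D, hD⟩ : ∃ D : ι → (Fin N → ℤ) → ℝ, D = fun n c => g (p0 n + dt (φ0 n) c).natAbs *
      F n (fun i => p n i + dt (φ n i) c) := ⟨_, rfl⟩
  have hD1 : ∀ n c, |D n c| ≤ 1 := by
    intro n c
    rw [hD]
    simp only
    rw [abs_mul]
    calc _ ≤ (1 : ℝ) * 1 := mul_le_mul (hg1 _) (hF _ _) (abs_nonneg _) zero_le_one
      _ = 1 := one_mul _
  obtain ⟨Q, hQ⟩ : ∃ Q : ℝ, Q = (2 * H + 1) ^ N := ⟨_, rfl⟩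
  have hQ0 : 0 ≤ Q := by rw [hQ]; positivity
  have hcard : ((bx N H).card : ℝ) = Q := by rw [hQ]; exact bx_card N H
  have e1 : ∑ c ∈ bx N H, (∑ n ∈ I, g (p0 n + dt (φ0 n) c).natAbs *
      F n (fun i => p n i + dt (φ n i) c)) ^ 2 = ∑ q ∈ I ×ˢ I, ∑ c ∈ bx N H, D q.1 c * D q.2 c := by
    rw [sum_comm]
    apply sum_congr rfl
    intro c _
    rw [sum_product, sq, sum_mul_sum, hD]
  rw [e1, ← hQ]
  have hdm : ∀ (x c w : Fin N → ℤ) (a : ℤ), dt x w = 0 → dt x (c + fun j => a * w j) = dt x c := by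
    intro x c w a h
    rw [dt_add]
    have : dt x (fun j => a * w j) = a * dt x w := by
      unfold dt
      rw [mul_sum]
      apply sum_congr rfl
      intro j _
      ring
    rw [this, h, mul_zero, add_zero]
  -- one pair
  have hpair : ∀ q ∈ I ×ˢ I, ∑ c ∈ bx N H, D q.1 c * D q.2 c ≤
      (if ¬ Sep (φ0 q.1) (φ q.1) ∨ ¬ Sep (φ0 q.1) (Fin.cons (φ0 q.2) (φ q.2) : Fin (m + 1) → Fin N → ℤ)
        then Q else 0) + Q / Real.log H ^ U := by
    intro q hq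
    rw [mem_product] at hq
    obtain ⟨hq1, hq2⟩ := hq
    split_ifs with hcl
    · have h1 : ∑ c ∈ bx N H, D q.1 c * D q.2 c ≤ Q := by
        rw [← hcard, ← nsmul_one, ← sum_const]
        apply sum_le_sum
        intro c _
        refine (le_abs_self _).trans ?_
        rw [abs_mul]
        calc _ ≤ (1 : ℝ) * 1 := mul_le_mul (hD1 _ _) (hD1 _ _) (abs_nonneg _) zero_le_one
          _ = 1 := one_mul _
      have : 0 ≤ Q / Real.log H ^ U := by positivity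
      linarith
    · push Not at hcl
      obtain ⟨c1, c2⟩ := hcl
      rw [zero_add]
      obtain ⟨w1, w11, w12, w13⟩ := small_sep N T (φ0 q.1) (φ q.1) (fun i j => toT _ (hφ _ hq1 i j)) c1
      obtain ⟨w2, w21, w22, w23⟩ := small_sep N T (φ0 q.1)
        (Fin.cons (φ0 q.2) (φ q.2) : Fin (m + 1) → Fin N → ℤ) (fun i j => by
          refine Fin.cases ?_ (fun i => ?_) i
          · rw [Fin.cons_zero]; exact toT _ (hφ0 _ hq2 j)
          · rw [Fin.cons_succ]; exact toT _ (hφ _ hq2 i j)) c2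
      have key := pairL (fun k : ℤ => g k.natAbs) Y (2 * Y + 1) (by omega) B hVv (fun k => hg1 _) H σ Un E
        (by rw [hUn]; exact f1) (p0 q.1) (φ0 q.1) w1 w2 w12 w22
        (fun j => by
          refine (w13 j).trans ?_
          rw [hEe]
          have : (2 * N * T + 1) ^ ek m ≤ (2 * N * T + 1) ^ ek (m + 1) :=
            Nat.pow_le_pow_right (by omega) (by simp only [ek]; omega)
          exact_mod_cast this)
        (fun j => by rw [hEe]; exact w23 j)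
        (fun c => F q.1 (fun i => p q.1 i + dt (φ q.1 i) c))
        (fun c => D q.2 c) (fun c => hF _ _) (fun c => hD1 _ _)
        (by
          intro c a
          congr 1
          funext i
          rw [hdm _ _ _ _ (w11 i)])
        (by
          intro c a
          have h0 := w21 0
          rw [Fin.cons_zero] at h0
          rw [hD]
          simp only
          rw [hdm _ _ _ _ h0]
          have h2 : (fun i => p q.2 i + dt (φ q.2 i) (c + fun j => a * w2 j)) =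
              fun i => p q.2 i + dt (φ q.2 i) c := by
            funext i
            have h3 := w21 i.succ
            rw [Fin.cons_succ] at h3
            rw [hdm _ _ _ _ h3]
          rw [h2])
        (le_of_eq hσ'.symm) (hYb _ hq1) 0
      rw [← bx_eq, hcard] at key
      have e2 : ∑ c ∈ bx N H, D q.1 c * D q.2 c = ∑ c ∈ bx N H, (fun k : ℤ => g k.natAbs)
          (p0 q.1 + dt (φ0 q.1) c) * (F q.1 (fun i => p q.1 i + dt (φ q.1 i) c) * D q.2 c) := by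
        apply sum_congr rfl
        intro c _
        rw [hD]
        simp only
        ring
      rw [e2]
      refine (le_abs_self _).trans (key.trans ?_)
      have h1 : B / Un ≤ 1 / 2 / Real.log H ^ U := by rw [hB, hY, hUn]; exact f6
      have h2 : 2 * ((strip H 1 σ (0 : Fin N → ℤ)).card : ℝ) ≤ 1 / 2 / Real.log H ^ U * Q := by
        rw [hQ]
        refine le_trans ?_ f7
        have h3 := strip_card H 1 σ (0 : Fin N → ℤ)
        rw [Fintype.card_fin] at h3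
        rw [← hσ]
        linarith
      have h3 := mul_le_mul_of_nonneg_left h1 hQ0
      have e3 : Q / Real.log H ^ U = Q * (1 / 2 / Real.log H ^ U) + 1 / 2 / Real.log H ^ U * Q := by
        field_simp
        ring
      rw [e3]
      exact add_le_add h3 h2
  refine (sum_le_sum hpair).trans (le_of_eq ?_)
  rw [sum_add_distrib, sum_const, ← sum_filter, sum_const, nsmul_eq_mul, nsmul_eq_mul, card_product]
  unfold clashL
  push_cast
  ring_nf

end Pool.Agent.N913.LM
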