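import Pool.Agent.N913.LM.B3

set_option autoImplicit false
set_option linter.unusedSectionVars false

/-! Liouville and Moebius; polynomials and binary forms. -/

namespace Pool.Agent.N913.LM

open Finset Polynomial
open Pool.Agent.H373R2.T7

/-- Liouville's function, `0` at `0` -/
noncomputable def lm (n : ℕ) : ℝ := if n = 0 then 0 else (-1) ^ ArithmeticFunction.cardFactors n

/-- Moebius' function -/
noncomputable def mb (n : ℕ) : ℝ := ((ArithmeticFunction.moebius n : ℤ) : ℝ)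

theorem sup_lm : SupSmall (fun n => (lm n : ℂ)) := by
  intro V
  obtain ⟨N0, h⟩ := sup_liou V
  refine ⟨N0, fun N hN α => ?_⟩
  have e : ∑ n ∈ Icc 1 N, ((lm n : ℝ) : ℂ) * Pool.Agent.H807R2.Dav.ee ((n : ℝ) * α) =
      ∑ n ∈ Icc 1 N, liR n * Pool.Agent.H807R2.Dav.ee ((n : ℝ) * α) := by
    apply sum_congr rfl
    intro n hn
    rw [mem_Icc] at hn
    unfold lm liR
    rw [if_neg (by omega)]
    push_cast
    rfl
  rw [e]
  exact h N hN α

theorem sup_mb : SupSmall (fun n => (mb n : ℂ)) := by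
  intro V
  obtain ⟨N0, h⟩ := sup_muC V
  refine ⟨N0, fun N hN α => ?_⟩
  have e : ∑ n ∈ Icc 1 N, ((mb n : ℝ) : ℂ) * Pool.Agent.H807R2.Dav.ee ((n : ℝ) * α) =
      ∑ n ∈ Icc 1 N, muC n * Pool.Agent.H807R2.Dav.ee ((n : ℝ) * α) := by
    apply sum_congr rfl
    intro n _
    unfold mb muC
    push_cast
    rfl
  rw [e]
  exact h N hN α

theorem lm_abs (n : ℕ) : |lm n| ≤ 1 := by
  unfold lm
  split_ifs
  · simp
  · rw [abs_pow, abs_neg, abs_one, one_pow]

theorem mb_abs (n : ℕ) : |mb n| ≤ 1 := by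
  unfold mb
  have := ArithmeticFunction.abs_moebius_le_one (n := n)
  exact_mod_cast this

theorem mb_zero : mb 0 = 0 := by
  unfold mb
  simp

/-- multiplication by a linear form -/
def mulf (w : ℕ → ℤ) (β γ : ℤ) : ℕ → ℤ
  | 0 => - (γ * w 0)
  | j + 1 => β * w j - γ * w (j + 1)

theorem mulf_eval (w : ℕ → ℤ) (k : ℕ) (hw : w (k + 1) = 0) (β γ a b : ℤ) :
    ∑ j ∈ range (k + 2), mulf w β γ j * (a ^ j * b ^ (k + 1 - j)) =
      (β * a - γ * b) * ∑ j ∈ range (k + 1), w j * (a ^ j * b ^ (k - j)) := by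
  have e1 : ∑ j ∈ range (k + 2), mulf w β γ j * (a ^ j * b ^ (k + 1 - j)) =
      ∑ j ∈ range (k + 1), β * w j * (a ^ (j + 1) * b ^ (k - j)) -
      ∑ j ∈ range (k + 2), γ * w j * (a ^ j * b ^ (k + 1 - j)) := by
    rw [sum_range_succ' (fun j => mulf w β γ j * (a ^ j * b ^ (k + 1 - j))),
      sum_range_succ' (fun j => γ * w j * (a ^ j * b ^ (k + 1 - j)))]
    simp only [mulf]
    rw [← sub_sub, ← sum_sub_distrib, sub_eq_add_neg _ (γ * w 0 * (a ^ 0 * b ^ (k + 1 - 0)))]
    congr 1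
    · apply sum_congr rfl
      intro j _
      have : k + 1 - (j + 1) = k - j := by omega
      rw [this]
      ring
    · ring
  rw [e1, sum_range_succ _ (k + 1), hw, mul_zero, zero_mul, add_zero, sub_mul, mul_sum, mul_sum]
  congr 1
  · apply sum_congr rfl
    intro j _
    rw [pow_succ]
    ring
  · apply sum_congr rfl
    intro j hj
    rw [mem_range] at hj
    have : k + 1 - j = (k - j) + 1 := by omega
    rw [this, pow_succ]
    ring

/-- a binary form of degree `k` which vanishes at `k` given points and not at `x` -/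
theorem form_exists (x : ℤ × ℤ) (hx : x ≠ (0, 0)) : ∀ (k : ℕ) (y : Fin k → ℤ × ℤ),
    (∀ i, x.1 * (y i).2 ≠ x.2 * (y i).1) → ∃ w : ℕ → ℤ, (∀ j, k < j → w j = 0) ∧
      (∀ i, ∑ j ∈ range (k + 1), w j * ((y i).1 ^ j * (y i).2 ^ (k - j)) = 0) ∧
      ∑ j ∈ range (k + 1), w j * (x.1 ^ j * x.2 ^ (k - j)) ≠ 0 := by
  intro k
  induction k with
  | zero =>
    intro y _
    refine ⟨fun j => if j = 0 then 1 else 0, fun j hj => if_neg (by omega), fun i => i.elim0, ?_⟩
    simp
  | succ k ih =>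
    intro y hy
    obtain ⟨w, h1, h2, h3⟩ := ih (fun i => y i.succ) (fun i => hy i.succ)
    refine ⟨mulf w (y 0).2 (y 0).1, ?_, ?_, ?_⟩
    · intro j hj
      cases j with
      | zero => omega
      | succ j =>
        simp only [mulf]
        rw [h1 j (by omega), h1 (j + 1) (by omega)]
        ring
    · intro i
      rw [mulf_eval w k (h1 _ (by omega))]
      refine Fin.cases ?_ (fun i => ?_) i
      · ring
      · rw [h2 i, mul_zero]
    · rw [mulf_eval w k (h1 _ (by omega))]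
      apply mul_ne_zero _ h3
      intro h
      apply hy 0
      linarith

/-- the same with at most `N - 1` points and forms of degree `N - 1` -/
theorem form_sep (x : ℤ × ℤ) (hx : x ≠ (0, 0)) (N k : ℕ) (hk : k < N) (y : Fin k → ℤ × ℤ)
    (hy : ∀ i, x.1 * (y i).2 ≠ x.2 * (y i).1) : ∃ w : Fin N → ℤ,
      (∀ i, ∑ j : Fin N, ((y i).1 ^ (j : ℕ) * (y i).2 ^ (N - 1 - j)) * w j = 0) ∧
      ∑ j : Fin N, (x.1 ^ (j : ℕ) * x.2 ^ (N - 1 - j)) * w j ≠ 0 := by
  classical
  have hx2 : x.1 * x.1 + x.2 * x.2 ≠ 0 := by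
    intro h
    apply hx
    have h1 : x.1 = 0 := by nlinarith [mul_self_nonneg x.1, mul_self_nonneg x.2]
    have h2 : x.2 = 0 := by nlinarith [mul_self_nonneg x.1, mul_self_nonneg x.2]
    exact Prod.ext h1 h2
  obtain ⟨w, _, h2, h3⟩ := form_exists x hx (N - 1)
    (fun i => if h : (i : ℕ) < k then y ⟨i, h⟩ else (-x.2, x.1)) (by
    intro i
    split_ifs with h
    · exact hy _
    · simp only
      intro h0
      apply hx2
      linarith)
  have e : N - 1 + 1 = N := by omega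
  rw [e] at h3
  refine ⟨fun j => w j, fun i => ?_, ?_⟩
  · have h4 := h2 ⟨i, by have := i.2; omega⟩
    rw [dif_pos i.2, e] at h4
    rw [Fin.sum_univ_eq_sum_range (fun j => ((y i).1 ^ j * (y i).2 ^ (N - 1 - j)) * w j)]
    rw [← h4]
    apply sum_congr rfl
    intro j _
    ring
  · rw [Fin.sum_univ_eq_sum_range (fun j => (x.1 ^ j * x.2 ^ (N - 1 - j)) * w j)]
    intro h4
    apply h3
    rw [← h4]
    apply sum_congr rfl
    intro j _
    ring

end Pool.Agent.N913.LM
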